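import Pool.Agent.Run7.h19.HP.Iface

set_option autoImplicit false

open Module Submodule Finset Pool.Agent.H99.SubDeg

namespace Run7.h604.HP

theorem t_G : Run7.h19.HP.S_G := by
  intro k i hi
  have h := gb_rec (K := ZMod 2) (2 * k + 1 - i) (k - (i + 1)) (by omega)
  rw [Nat.card_zmod, show k - (i + 1) + 1 = k - i by omega,
    show 2 * k + 1 - i - 1 = 2 * k + 1 - (i + 1) by omega] at h
  unfold Run7.h19.HP.bb
  rw [mul_comm (2 ^ (k - i) - 1) _, h, ← mul_assoc]
  refine Nat.mul_le_mul_right _ ?_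
  rw [Nat.mul_sub, mul_one, ← pow_add, show k - i + 1 + k = 2 * k + 1 - i by omega]
  exact Nat.sub_le_sub_left (Nat.one_le_two_pow) _

end Run7.h604.HP
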