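import Pool.Agent.Run7.h19.HP.Iface

set_option autoImplicit false

open Module Submodule Finset Pool.Agent.H99.SubDeg

namespace Run7.h604.HP

lemma prodIco_le (a b : ℕ) (hab : a + 2 ≤ b) :
    ∏ e ∈ Finset.Ico a b, (1 - (1 / 2 : ℝ) ^ e) ≤ (1 - (1 / 2 : ℝ) ^ a) * (1 - (1 / 2 : ℝ) ^ (a + 1)) := by
  have hnn : ∀ e : ℕ, 0 ≤ (1 - (1 / 2 : ℝ) ^ e) := by
    intro e
    have : (1 / 2 : ℝ) ^ e ≤ 1 := pow_le_one₀ (by norm_num) (by norm_num)
    linarith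
  have hle : ∀ e : ℕ, (1 - (1 / 2 : ℝ) ^ e) ≤ 1 := by
    intro e
    have : 0 ≤ (1 / 2 : ℝ) ^ e := by positivity
    linarith
  rw [Finset.prod_eq_prod_Ico_succ_bot (by omega), Finset.prod_eq_prod_Ico_succ_bot (by omega)]
  have h1 : ∏ e ∈ Finset.Ico (a + 1 + 1) b, (1 - (1 / 2 : ℝ) ^ e) ≤ 1 :=
    Finset.prod_le_one (fun e _ => hnn e) (fun e _ => hle e)
  have h2 := mul_le_mul_of_nonneg_left h1 (hnn (a + 1))
  rw [mul_one] at h2
  exact mul_le_mul_of_nonneg_left h2 (hnn a)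

lemma prodIco_nonneg (a b : ℕ) :
    0 ≤ ∏ e ∈ Finset.Ico a b, (1 - (1 / 2 : ℝ) ^ e) := by
  apply Finset.prod_nonneg
  intro e _
  have : (1 / 2 : ℝ) ^ e ≤ 1 := pow_le_one₀ (by norm_num) (by norm_num)
  linarith

lemma prodIco_le_one (a b : ℕ) :
    ∏ e ∈ Finset.Ico a b, (1 - (1 / 2 : ℝ) ^ e) ≤ 1 := by
  apply Finset.prod_le_one
  · intro e _
    have : (1 / 2 : ℝ) ^ e ≤ 1 := pow_le_one₀ (by norm_num) (by norm_num)
    linarith
  · intro e _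
    have : 0 ≤ (1 / 2 : ℝ) ^ e := by positivity
    linarith

lemma core1 (x y D P R B Y t : ℝ) (hx : 1 ≤ x) (hD : 1 ≤ D) (hR : 0 ≤ R) (hB : 0 ≤ B)
    (hy : 0 ≤ y) (hxy : x * y ≤ 4) (hP : P = x * D - 1) (hY0 : 0 ≤ Y) (hY1 : Y ≤ 1)
    (hYD : Y ≤ 105 / 512 * D) (h1 : P * R ≤ B * y * Y) (ht : t * 2 ^ 20 ≤ B)
    (z : ℝ) (hz0 : 0 ≤ z) (w : ℝ) (hw : z * D ≤ w * P) (hw0 : 0 ≤ w) (hwy : w * (x * y) ≤ 4) :
    x / 1024 * (P * R) + (x - 1) * (z * R) + t ≤ B := by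
  have hD0 : 0 < D := by linarith
  have f1 : x / 1024 * (P * R) ≤ B / 256 := by
    calc x / 1024 * (P * R) ≤ x / 1024 * (B * y * Y) := by
          apply mul_le_mul_of_nonneg_left h1; positivity
      _ ≤ x / 1024 * (B * y * 1) := by gcongr
      _ = (x * y) * (B / 1024) := by ring
      _ ≤ 4 * (B / 1024) := by gcongr
      _ = B / 256 := by ring
  have f2 : D * (z * R) ≤ D * (w * (B * y * (105 / 512))) := by
    calc D * (z * R) = (z * D) * R := by ring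
      _ ≤ (w * P) * R := by gcongr
      _ = w * (P * R) := by ring
      _ ≤ w * (B * y * Y) := by gcongr
      _ ≤ w * (B * y * (105 / 512 * D)) := by gcongr
      _ = D * (w * (B * y * (105 / 512))) := by ring
  have f3 : z * R ≤ w * (B * y * (105 / 512)) := le_of_mul_le_mul_left f2 hD0
  have f4 : (x - 1) * (z * R) ≤ B * (105 / 128) := by
    calc (x - 1) * (z * R) ≤ x * (z * R) := by
          apply mul_le_mul_of_nonneg_right (by linarith); positivity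
      _ ≤ x * (w * (B * y * (105 / 512))) := by gcongr
      _ = (w * (x * y)) * (B * (105 / 512)) := by ring
      _ ≤ 4 * (B * (105 / 512)) := by gcongr
      _ = B * (105 / 128) := by ring
  have f5 : t ≤ B / 2 ^ 20 := by
    rw [le_div_iff₀ (by norm_num)]; exact ht
  norm_num at f5
  linarith

open Run7.h19.HP in
theorem t_N1 : Run7.h19.HP.S_BETA → Run7.h19.HP.S_N0 → Run7.h19.HP.S_N1 := by
  intro hβ hN0 k τ j hk hτ hτ2 hj
  have h0 := hN0 k τ hk (by omega) hτ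
  have h1 := hβ k j (by omega) (by omega)
  have hjr : τ ≤ j ∧ j ≤ τ + 1 := by omega
  have hY0 := prodIco_nonneg (k - j + 1) (k - 1)
  have hY1 := prodIco_le_one (k - j + 1) (k - 1)
  have hY2 := prodIco_le (k - j + 1) (k - 1) (by omega)
  have e0 : (2 ^ k - 1) ^ (j - 2) = (2 ^ k - 1) ^ (j - 3) * (2 ^ k - 1) := by
    rw [← pow_succ]; congr 1; omega
  rw [e0, show (2 ^ k - 1) ^ (j - 3) * (2 ^ k - 1) * bb k j
    = (2 ^ k - 1) * ((2 ^ k - 1) ^ (j - 3) * bb k j) by ring] at h1 ⊢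
  set Rn : ℕ := (2 ^ k - 1) ^ (j - 3) * bb k j with hRn
  set tn : ℕ := 2 ^ (41 * k) * bb k τ with htn
  set Y : ℝ := ∏ e ∈ Finset.Ico (k - j + 1) (k - 1), (1 - (1 / 2 : ℝ) ^ e) with hY
  clear_value Rn tn Y
  set c := k - τ with hc
  have hkc : k = τ + c := by omega
  have hPc : ((2 ^ k - 1 : ℕ) : ℝ) = (2 : ℝ) ^ τ * 2 ^ c - 1 := by
    rw [Nat.cast_sub Nat.one_le_two_pow, hkc, pow_add]; push_cast; ring
  have hx1 : (1 : ℝ) ≤ 2 ^ τ := one_le_pow₀ (by norm_num)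
  have hD1 : (1 : ℝ) ≤ 2 ^ c := one_le_pow₀ (by norm_num)
  have h0' : (tn : ℝ) * 2 ^ 20 ≤ (bb k 2 : ℝ) := by exact_mod_cast h0
  have hYD : Y ≤ 105 / 512 * (2 : ℝ) ^ c := by
    rcases (by omega : c = 2 ∨ 3 ≤ c) with h | h
    · rcases hj with hj | hj
      · have : k - j + 1 = 3 := by omega
        rw [this] at hY2
        rw [h]; norm_num at hY2 ⊢; linarith
      · have : k - j + 1 = 2 := by omega
        rw [this] at hY2
        rw [h]; norm_num at hY2 ⊢; linarith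
    · have : (2 : ℝ) ^ 3 ≤ 2 ^ c := pow_le_pow_right₀ (by norm_num) h
      norm_num at this
      linarith
  rw [Nat.cast_mul] at h1
  have hτ10 : (2 : ℝ) ^ (τ - 10) = 2 ^ τ / 1024 := by
    have : (2 : ℝ) ^ τ = 2 ^ (τ - 10) * 2 ^ 10 := by rw [← pow_add]; congr 1; omega
    rw [this]; norm_num
  have hxy : (2 : ℝ) ^ τ * (1 / 2) ^ (τ - 2) = 4 := by
    have : (2 : ℝ) ^ τ = 2 ^ (τ - 2) * 2 ^ 2 := by rw [← pow_add]; congr 1; omega
    rw [this, mul_comm ((2 : ℝ) ^ (τ - 2)) (2 ^ 2), mul_assoc, ← mul_pow]; norm_num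
  have hxy1 : (2 : ℝ) ^ τ * (1 / 2) ^ (τ + 1 - 2) = 2 := by
    have e : τ + 1 - 2 = (τ - 2) + 1 := by omega
    rw [e, pow_succ, ← mul_assoc, hxy]; norm_num
  have key : (((2 ^ (τ - 10) * ((2 ^ k - 1) * Rn) + (2 ^ τ - 1) * ((2 ^ j - 1) * Rn) + tn : ℕ)) : ℝ)
      ≤ (bb k 2 : ℝ) := by
    rw [Nat.cast_add, Nat.cast_add, Nat.cast_mul, Nat.cast_mul, Nat.cast_mul, Nat.cast_mul,
      Nat.cast_pow, Nat.cast_ofNat, hτ10]
    have e1 : ((2 ^ τ - 1 : ℕ) : ℝ) = (2 : ℝ) ^ τ - 1 := by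
      rw [Nat.cast_sub Nat.one_le_two_pow]; push_cast; ring
    have e2 : ((2 ^ j - 1 : ℕ) : ℝ) = (2 : ℝ) ^ j - 1 := by
      rw [Nat.cast_sub Nat.one_le_two_pow]; push_cast; ring
    rw [e1, e2]
    rcases hj with hj | hj
    · subst hj
      refine core1 (2 ^ j) ((1 / 2) ^ (j - 2)) (2 ^ c) _ Rn (bb k 2) Y tn hx1 hD1 (by positivity)
        (by positivity) (by positivity) hxy.le hPc hY0 hY1 hYD h1 h0' (2 ^ j - 1) (by linarith) 1 ?_
        (by norm_num) (by linarith)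
      rw [hPc]; nlinarith
    · subst hj
      have e3 : (2 : ℝ) ^ (τ + 1) = 2 ^ τ * 2 := pow_succ _ _
      refine core1 (2 ^ τ) ((1 / 2) ^ (τ + 1 - 2)) (2 ^ c) _ Rn (bb k 2) Y tn hx1 hD1
        (by positivity) (by positivity) (by positivity) (by linarith) hPc hY0 hY1 hYD h1 h0'
        (2 ^ (τ + 1) - 1) (by rw [e3]; linarith) 2 ?_ (by norm_num) (by linarith)
      have hD2 : (2 : ℝ) ^ 1 ≤ 2 ^ c := pow_le_pow_right₀ (by norm_num) (by omega)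
      rw [hPc, e3]; nlinarith
  exact_mod_cast key

end Run7.h604.HP
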