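import Pool.Agent.Run7.h19.HP.Iface

set_option autoImplicit false

open Module Submodule Finset Pool.Agent.H99.SubDeg

namespace Run7.h604.HP

open Run7.h19.HP in
theorem t_BETA : Run7.h19.HP.S_G → Run7.h19.HP.S_BETA := by
  intro hG k i hi hik
  obtain ⟨m, rfl⟩ : ∃ m, i = 2 + m := ⟨i - 2, by omega⟩
  clear hi
  induction m with
  | zero =>
    have : Finset.Ico (k - (2 + 0) + 1) (k - 1) = ∅ := by
      apply Finset.Ico_eq_empty_of_le; omega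
    rw [this]
    simp
  | succ m ih =>
    have h1 := ih (by omega)
    have h2 := hG k (2 + m) (by omega)
    have hprod : ∏ e ∈ Finset.Ico (k - (2 + (m + 1)) + 1) (k - 1), (1 - (1 / 2 : ℝ) ^ e)
        = (1 - (1 / 2 : ℝ) ^ (k - (2 + m))) *
          ∏ e ∈ Finset.Ico (k - (2 + m) + 1) (k - 1), (1 - (1 / 2 : ℝ) ^ e) := by
      rw [show k - (2 + (m + 1)) + 1 = k - (2 + m) by omega]
      exact Finset.prod_eq_prod_Ico_succ_bot (by omega) _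
    rw [hprod]
    have hpos : 0 ≤ (1 - (1 / 2 : ℝ) ^ (k - (2 + m))) := by
      have : (1 / 2 : ℝ) ^ (k - (2 + m)) ≤ 1 := pow_le_one₀ (by norm_num) (by norm_num)
      linarith
    -- real form of h2
    have h3 : (2 : ℝ) ^ (k - (2 + m) + 1) * (((2 ^ k - 1 : ℕ) : ℝ) * (bb k (2 + m + 1) : ℝ))
        ≤ ((2 : ℝ) ^ (k - (2 + m)) - 1) * (bb k (2 + m) : ℝ) := by
      have h4 : ((2 ^ (k - (2 + m) + 1) * ((2 ^ k - 1) * bb k (2 + m + 1)) : ℕ) : ℝ)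
          ≤ (((2 ^ (k - (2 + m)) - 1) * bb k (2 + m) : ℕ) : ℝ) := by exact_mod_cast h2
      have h5 : ((2 ^ (k - (2 + m)) - 1 : ℕ) : ℝ) = (2 : ℝ) ^ (k - (2 + m)) - 1 := by
        rw [Nat.cast_sub Nat.one_le_two_pow]; push_cast; ring
      rw [Nat.cast_mul, Nat.cast_mul, Nat.cast_mul, h5] at h4
      push_cast at h4 ⊢
      exact h4
    have h6 : (((2 ^ k - 1 : ℕ) : ℝ) * (bb k (2 + m + 1) : ℝ))
        ≤ (1 / 2) * (1 - (1 / 2 : ℝ) ^ (k - (2 + m))) * (bb k (2 + m) : ℝ) := by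
      have hp : (0 : ℝ) < 2 ^ (k - (2 + m) + 1) := by positivity
      refine le_of_mul_le_mul_left ?_ hp
      refine h3.trans (le_of_eq ?_)
      have h7 : (2 : ℝ) ^ (k - (2 + m)) * (1 / 2 : ℝ) ^ (k - (2 + m)) = 1 := by
        rw [← mul_pow]; norm_num
      rw [pow_succ]
      linear_combination ((bb k (2 + m) : ℝ)) * h7
    have e1 : 2 + (m + 1) - 2 = (2 + m - 2) + 1 := by omega
    rw [e1, show 2 + (m + 1) = 2 + m + 1 by omega, Nat.cast_mul, Nat.cast_pow, pow_succ, pow_succ]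
    rw [Nat.cast_mul, Nat.cast_pow] at h1
    calc ((2 ^ k - 1 : ℕ) : ℝ) ^ (2 + m - 2) * ((2 ^ k - 1 : ℕ) : ℝ) * (bb k (2 + m + 1) : ℝ)
        = ((2 ^ k - 1 : ℕ) : ℝ) ^ (2 + m - 2) * (((2 ^ k - 1 : ℕ) : ℝ) * (bb k (2 + m + 1) : ℝ)) := by
          ring
      _ ≤ ((2 ^ k - 1 : ℕ) : ℝ) ^ (2 + m - 2) *
          ((1 / 2) * (1 - (1 / 2 : ℝ) ^ (k - (2 + m))) * (bb k (2 + m) : ℝ)) := by
          gcongr
      _ = ((1 / 2) * (1 - (1 / 2 : ℝ) ^ (k - (2 + m)))) *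
          (((2 ^ k - 1 : ℕ) : ℝ) ^ (2 + m - 2) * (bb k (2 + m) : ℝ)) := by ring
      _ ≤ ((1 / 2) * (1 - (1 / 2 : ℝ) ^ (k - (2 + m)))) *
          ((bb k 2 : ℝ) * (1 / 2) ^ (2 + m - 2) *
          ∏ e ∈ Finset.Ico (k - (2 + m) + 1) (k - 1), (1 - (1 / 2 : ℝ) ^ e)) := by
          gcongr
      _ = _ := by ring

end Run7.h604.HP
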